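import Pool.Agent.Helper91.PL.SBasic

/-!
# MP_bae8ce_ag : module S1, one Cauchy-Schwarz step
-/

set_option autoImplicit false
set_option linter.unusedSectionVars false

open Finset

namespace PL

noncomputable section

variable {k : Type} [Field k] [Fintype k] [DecidableEq k] {N : ℕ}

private lemma s1_card : ((univ.erase (0 : k)).card : ℝ) = qq k - 1 := by
  rw [card_erase_of_mem (mem_univ _), card_univ, Nat.cast_sub Fintype.card_pos]
  simp [qq]

private lemma s1_pos : 0 < qq k - 1 := by
  have h : 1 < Fintype.card k := Fintype.one_lt_card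
  have : (1 : ℝ) < Fintype.card k := by exact_mod_cast h
  unfold qq
  linarith

private lemma s1_dg_inv (i : Fin N) {s : k} (hs : s ≠ 0) : dg (N := N) i s * dg i s⁻¹ = 1 := by
  rw [dg_mul, mul_inv_cancel₀ hs, dg_one]

private lemma s1_dg_inv' (i : Fin N) {s : k} (hs : s ≠ 0) : dg (N := N) i s⁻¹ * dg i s = 1 := by
  rw [dg_mul, inv_mul_cancel₀ hs, dg_one]

theorem cs_step (a b : Tup N k → ℝ) (ha : TInv a) (hb : TInv b)
    (g ginv : Matrix (Fin N) (Fin N) k) (hg : g * ginv = 1) (i : Fin N) :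
    ip a (fun χ => b (act g χ)) ^ 2 ≤ nr b *
      ((∑ s ∈ univ.erase (0 : k), ip a (fun χ => a (act (ginv * dg i s * g) χ))) /
        (qq k - 1)) := by
  have hg' : ginv * g = 1 := mul_one_comm' hg
  have hQ := s1_pos (k := k)
  set X := ip a (fun χ => b (act g χ)) with hX
  set F : k → Tup N k → ℝ := fun s χ => a (act (ginv * dg i s) χ) with hF
  set H : k → ℝ := fun t => ip a (fun χ => a (act (ginv * dg i t * g) χ)) with hH
  -- every translate has the same scalar product with `b`
  have h1 : ∀ s ∈ univ.erase (0 : k), ip (F s) b = X := by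
    intro s hs
    have hs0 : s ≠ 0 := (mem_erase.1 hs).1
    rw [hX, ip_act_right hg a b]
    have h2 := ip_act (s1_dg_inv i hs0) (fun χ => a (act ginv χ)) b
    rw [← h2]
    congr 1
    · funext χ
      rw [hF]
      show a (act (ginv * dg i s) χ) = a (act ginv (act (dg i s) χ))
      rw [act_mul]
    · funext χ
      rw [hb.act_dg i hs0]
  -- correlations of the translates
  have h2 : ∀ s ∈ univ.erase (0 : k), ∀ s' ∈ univ.erase (0 : k),
      ip (F s) (F s') = H (s' / s) := by
    intro s hs s' _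
    have hs0 : s ≠ 0 := (mem_erase.1 hs).1
    have hAB : (ginv * dg i s) * (dg i s⁻¹ * g) = 1 := by
      calc (ginv * dg i s) * (dg i s⁻¹ * g) = ginv * (dg i s * dg i s⁻¹) * g := by
            simp only [mul_assoc]
        _ = 1 := by rw [s1_dg_inv i hs0, mul_one, hg']
    rw [ip_comm]
    have h3 := ip_act_right hAB (F s') a
    rw [show F s = fun χ => a (act (ginv * dg i s) χ) from rfl, h3, ip_comm]
    show ip a (fun χ => a (act (ginv * dg i s') (act (dg i s⁻¹ * g) χ))) = H (s' / s)
    rw [hH]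
    congr 1
    funext χ
    rw [← act_mul]
    congr 2
    calc (ginv * dg i s') * (dg i s⁻¹ * g) = ginv * (dg i s' * dg i s⁻¹) * g := by
          simp only [mul_assoc]
      _ = ginv * dg i (s' / s) * g := by rw [dg_mul, div_eq_mul_inv]
  -- the sum of the correlations
  have h3 : ∀ s ∈ univ.erase (0 : k),
      ∑ s' ∈ univ.erase (0 : k), ip (F s) (F s') = ∑ t ∈ univ.erase (0 : k), H t := by
    intro s hs
    have hs0 : s ≠ 0 := (mem_erase.1 hs).1
    rw [sum_congr rfl (h2 s hs)]
    refine sum_bij' (fun s' _ => s' / s) (fun t _ => t * s) ?_ ?_ ?_ ?_ ?_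
    · intro s' hs'
      exact mem_erase.2 ⟨div_ne_zero (mem_erase.1 hs').1 hs0, mem_univ _⟩
    · intro t ht
      exact mem_erase.2 ⟨mul_ne_zero (mem_erase.1 ht).1 hs0, mem_univ _⟩
    · intro s' _
      exact div_mul_cancel₀ s' hs0
    · intro t _
      exact mul_div_cancel_right₀ t hs0
    · intro s' _
      rfl
  have h4 : nr (fun χ => ∑ s ∈ univ.erase (0 : k), F s χ) =
      (qq k - 1) * ∑ t ∈ univ.erase (0 : k), H t := by
    have e1 : nr (fun χ => ∑ s ∈ univ.erase (0 : k), F s χ) =
        ∑ s ∈ univ.erase (0 : k), ∑ s' ∈ univ.erase (0 : k), ip (F s) (F s') := by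
      unfold nr ip
      have : ∀ χ : Tup N k, (∑ s ∈ univ.erase (0 : k), F s χ) ^ 2 =
          ∑ s ∈ univ.erase (0 : k), ∑ s' ∈ univ.erase (0 : k), F s χ * F s' χ := by
        intro χ
        rw [sq, sum_mul_sum]
      rw [sum_congr rfl fun χ _ => this χ, sum_comm]
      refine sum_congr rfl fun s _ => ?_
      rw [sum_comm]
    rw [e1, sum_congr rfl h3, sum_const, nsmul_eq_mul, s1_card]
  have h5 : (qq k - 1) * X = ip (fun χ => ∑ s ∈ univ.erase (0 : k), F s χ) b := by
    have e1 : ip (fun χ => ∑ s ∈ univ.erase (0 : k), F s χ) b =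
        ∑ s ∈ univ.erase (0 : k), ip (F s) b := by
      unfold ip
      rw [sum_comm]
      refine sum_congr rfl fun χ _ => ?_
      rw [sum_mul]
    rw [e1, sum_congr rfl h1, sum_const, nsmul_eq_mul, s1_card]
  have h6 := ip_sq_le (fun χ => ∑ s ∈ univ.erase (0 : k), F s χ) b
  rw [← h5, h4] at h6
  have h7 : (qq k - 1) * X ^ 2 ≤ nr b * ∑ t ∈ univ.erase (0 : k), H t := by
    have : (qq k - 1) * ((qq k - 1) * X ^ 2) ≤
        (qq k - 1) * (nr b * ∑ t ∈ univ.erase (0 : k), H t) := by
      calc (qq k - 1) * ((qq k - 1) * X ^ 2) = ((qq k - 1) * X) ^ 2 := by ring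
        _ ≤ (qq k - 1) * (∑ t ∈ univ.erase (0 : k), H t) * nr b := h6
        _ = _ := by ring
    exact le_of_mul_le_mul_left this hQ
  rw [← mul_div_assoc, le_div_iff₀ hQ, mul_comm (X ^ 2)]
  exact h7

end

end PL
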